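import Pool.Agent.helper7.PQ.Spec

set_option autoImplicit false

open Finset PowerSeries

noncomputable section

namespace Pool.Agent.PQ

open Pool.Agent.EP

theorem OEV_ac (N : ℕ) (h : ac (N : ℤ) ≠ 0) : ∃ s : ℕ, pp s ≠ 0 ∧ 24 * s = N + 1 := by
  unfold ac at h
  split_ifs at h with hc
  · exact ⟨(((N : ℤ) + 1) / 24).toNat, h, by omega⟩
  · exact absurd rfl h

theorem OEV (hSUMP : SUMP_stmt) (hOSD : OSD_stmt) (hNR : NR_stmt) : OEV_stmt := by
  intro κ s P P' hκ hs hcard hP hP24 hP' hP'24 hPs hsP hExc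
  have hQodd : Odd (∏ q ∈ s, q) := by
    refine Finset.prod_induction (fun q : ℕ => q) (fun q => Odd q) (fun a b ha hb => ha.mul hb) odd_one ?_
    intro q hq
    rw [Nat.odd_iff]
    have := (hs q hq).2
    omega
  have hPodd : Odd P := by
    rw [Nat.odd_iff]
    omega
  have hP'odd : Odd P' := by
    rw [Nat.odd_iff]
    omega
  have hQP : ((∏ q ∈ s, q) * P') % 2 = 1 := Nat.odd_iff.1 (hQodd.mul hP'odd)
  have hev : ∀ u : ℕ, (2 ^ (2 * κ + 1) * u ^ 2) % 2 = 0 := by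
    intro u
    rw [pow_succ, mul_assoc, mul_left_comm]
    exact Nat.mul_mod_right 2 _
  have hmain := hSUMP (2 * κ + 1) 1 (∏ q ∈ s, q) P P' (by omega) hP hP' (by omega) hQP hExc
    (fun u _ => Nat.coprime_one_left _)
    (by
      intro u hu
      apply Nat.Coprime.prod_right
      intro q hq
      rw [one_mul] at hu ⊢
      have h24 := (hs q hq).2
      exact ((Nat.Prime.coprime_iff_not_dvd (hs q hq).1).2
        (hNR q (2 * κ + 1) P u (hs q hq).1 (by omega) (by omega) (hsP q hq) hu)).symm)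
  rw [show RB (2 * κ + 1) (1 * P) ((∏ q ∈ s, q) * P') = 1 by
    rw [one_mul]
    exact hOSD κ s P P' hκ hs hcard hP hP24 hP' hP'24 hPs] at hmain
  by_cases h0 : (∑ u ∈ uB (2 * κ + 1) ((∏ q ∈ s, q) * P'),
      ac ((1 * P * ((∏ q ∈ s, q) * P' - 2 ^ (2 * κ + 1) * u ^ 2) : ℕ) : ℤ)) = 0
  · rw [h0, zero_add] at hmain
    have h1 : (∑ u ∈ uB (2 * κ + 1) (1 * P),
        ac (((1 * P - 2 ^ (2 * κ + 1) * u ^ 2) * ((∏ q ∈ s, q) * P') : ℕ) : ℤ)) ≠ 0 := by
      rw [hmain]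
      exact one_ne_zero
    obtain ⟨u, hu, hne⟩ := Finset.exists_ne_zero_of_sum_ne_zero h1
    unfold uB at hu
    rw [Finset.mem_filter] at hu
    obtain ⟨n, hn1, hn2⟩ := OEV_ac _ hne
    refine ⟨n, ⟨u, Or.inr ⟨?_, hn2⟩⟩, hn1⟩
    refine lt_of_le_of_ne hu.2.2 ?_
    intro he
    have h2 := hev u
    rw [he, one_mul] at h2
    rw [Nat.odd_iff] at hPodd
    omega
  · obtain ⟨u, hu, hne⟩ := Finset.exists_ne_zero_of_sum_ne_zero h0
    unfold uB at hu
    rw [Finset.mem_filter] at hu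
    obtain ⟨n, hn1, hn2⟩ := OEV_ac _ hne
    refine ⟨n, ⟨u, Or.inl ⟨?_, hn2⟩⟩, hn1⟩
    refine lt_of_le_of_ne hu.2.2 ?_
    intro he
    have h2 := hev u
    rw [he] at h2
    omega

end Pool.Agent.PQ
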